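import Pool.Agent.Q293.DPPFour

/-!
# A planar discrete point process with a transient random walk
-/

set_option autoImplicit false

open MeasureTheory Filter Topology Q293.Odo Q293.DPP Q293.Anti
open scoped ENNReal

namespace Pool.Agent.Results.MP_4a7829_pr.PlanarTransience

/-- the annealed probability `∫ P_ω (G) P(dω)` of a path event `G`, where `P = Q (· | ω 0 = 1)` -/
noncomputable def annealed (Q : Measure Conf) (G : (ℕ → ℤ × ℤ) → Prop) : ℝ≥0∞ :=
  ∫⁻ ω, dirLaw {ξ | G fun n => walk ω ξ n} ∂(palm Q)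

/-- **MP_4a7829_pr, Q1 (positive answer).**  There is a discrete point process on the square
lattice (stationary and ergodic for each of the two unit shifts) for which the random walk is
almost surely transient: with annealed probability zero the walk visits the origin infinitely
often. -/
theorem result : ∃ Q : Measure Conf, IsDPP Q ∧
    annealed Q (fun X => ∃ᶠ n in atTop, X n = 0) = 0 := by
  refine ⟨Qm m4, isDPP adm4, ?_⟩
  have hS : MeasurableSet {p : Conf × (ℕ → Dir) | ¬ ∃ᶠ n in atTop, walk p.1 p.2 n = 0} := by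
    have : {p : Conf × (ℕ → Dir) | ¬ ∃ᶠ n in atTop, walk p.1 p.2 n = 0}
        = ⋃ N : ℕ, ⋂ (n : ℕ) (_ : N ≤ n), {p : Conf × (ℕ → Dir) | walk p.1 p.2 n = 0}ᶜ := by
      ext p
      simp only [Set.mem_ofPred_eq, not_frequently, eventually_atTop, Set.mem_iUnion,
        Set.mem_iInter, Set.mem_compl_iff]
    rw [this]
    refine MeasurableSet.iUnion fun N => MeasurableSet.iInter fun n => MeasurableSet.iInter
      fun _ => ?_
    exact ((measurable_walk n) (MeasurableSet.of_discrete (s := {(0 : ℤ × ℤ)}))).compl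
  have h1 : ∀ᵐ ω ∂(palm (Qm m4)), ∀ᵐ ξ ∂dirLaw, ¬ ∃ᶠ n in atTop, walk ω ξ n = 0 := by
    apply ae_palm (p := fun ω => ∀ᵐ ξ ∂dirLaw, ¬ ∃ᶠ n in atTop, walk ω ξ n = 0)
    · exact measurable_quenched hS
    · filter_upwards [ae_far adm4] with κ hκ h0
      have h2 := ae_finite_of_green (step (Phi m4 κ)) 0 0 (green_finite hκ h0)
      filter_upwards [h2] with ξ hξ
      simpa only [walk_eq_W] using hξ
  unfold annealed
  have h2 : ∀ᵐ ω ∂(palm (Qm m4)), dirLaw {ξ | ∃ᶠ n in atTop, walk ω ξ n = 0} = 0 := by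
    filter_upwards [h1] with ω hω
    rw [ae_iff] at hω
    simpa only [not_not] using hω
  rw [lintegral_congr_ae h2]
  simp

end Pool.Agent.Results.MP_4a7829_pr.PlanarTransience
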